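import Pool.Agent.H514Z.HHHExist

set_option autoImplicit false

namespace Pool.Agent.Results.MP_96ff56_al.FanoKernel

open Pool.Agent.H514Z.HHH

/-- For `d = 7`, `n = 4`, `V = ℂ^4`: the module `S_{(7,7,7,7)} V = det^7` occurs in `S^7(S^4 V)`,
and `h_{7,4}` vanishes on its whole isotypic component. -/
theorem result : (∃ T ∈ rectIsotypic 7 4, T ≠ 0) ∧
    ∀ T ∈ rectIsotypic 7 4, hhh (Fin 4 → ℂ) T = 0 :=
  ⟨⟨symz T0, T1_mem, T1_ne⟩, fun T hT => hhh_zero (by decide) (by norm_num) T hT⟩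

end Pool.Agent.Results.MP_96ff56_al.FanoKernel
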